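import Pool.Graph.R_seed8.H654R3.RVV.Final

/-!
# Reachability of the man-optimal stable matching under the Roth-Vande Vate mechanism
-/

namespace Pool.Agent.H654R3.RVV

open Pool.Agent.NPC

/-- Every man and every woman is matched. -/
def PerfectL (I : Prefs) (M : List (ℕ × ℕ)) : Prop :=
  ∀ i < I.1.length, (∃ w, (i, w) ∈ M) ∧ ∃ m, (m, i) ∈ M

/-- Every man is matched to the first woman in his list. -/
def MenFirst (I : Prefs) (M : List (ℕ × ℕ)) : Prop :=
  ∀ i < I.1.length, ∃ w, (i, w) ∈ M ∧ (I.1.getD i []).head? = some w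

/-- Every woman is matched to one of the first three men in her list. -/
def WomenThree (I : Prefs) (M : List (ℕ × ℕ)) : Prop :=
  ∀ j < I.1.length, ∃ m, (m, j) ∈ M ∧ m ∈ (I.2.getD j []).take 3

/-- `M` is the man-optimal stable matching: it is a stable matching, and no man has in any other
stable matching a partner whom he prefers to his partner in `M` (in particular a man who is alone
in `M` is alone in all stable matchings). -/
def ManOptimal (I : Mkt (Bool × ℕ)) (M : Bool × ℕ → Bool × ℕ → Prop) : Prop :=
  (IsMatching I M ∧ Stable I M) ∧ ∀ M', IsMatching I M' → Stable I M' →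
    ∀ a b', a.1 = true → M' a b' → ∃ b, M a b ∧ I.r a b ≤ I.r a b'

/-- The decision problem: given the preference lists and the matching `M₀`, does some execution of
the mechanism stop at the man-optimal stable matching? -/
def REACHOpt (x : Prefs × List (ℕ × ℕ)) : Prop :=
  IsInst x.1 ∧ IsMatching (market x.1) (ofList x.2) ∧
    ∃ M, ManOptimal (market x.1) M ∧ Reaches (market x.1) (ofList x.2) M

section abs

variable {v m : ℕ}

theorem goal_key_zero (lit : Fin m → Fin v → Bool → Bool) (x y z : V v m) (hx : x.man = true)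
    (hz : z.man = false) (h : rel goal x y) (hne : z ≠ y) : x.key lit y < x.key lit z := by
  cases x <;> simp only [V.man, reduceCtorEq] at hx <;>
    simp only [rel, goal, Option.some.injEq] at h <;> subst h <;>
    cases z <;> simp only [V.man, reduceCtorEq] at hz <;>
    simp only [V.key] <;> (try split_ifs) <;> simp_all

/-- the men whom a woman may prefer to her partner in the final matching -/
def pref3 (lit : Fin m → Fin v → Bool → Bool) (x y z : V v m) : Prop :=
  z.man = true ∧ z ≠ y ∧ x.key lit z ≤ x.key lit y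

theorem pref3_two (lit : Fin m → Fin v → Bool → Bool) (x y z0 z1 z2 : V v m)
    (hx : x.man = false) (h : rel goal x y) (h0 : pref3 lit x y z0) (h1 : pref3 lit x y z1)
    (h2 : pref3 lit x y z2) : z0 = z1 ∨ z0 = z2 ∨ z1 = z2 := by
  obtain ⟨a0, b0, c0⟩ := h0
  obtain ⟨a1, b1, c1⟩ := h1
  obtain ⟨a2, b2, c2⟩ := h2
  have key : ∃ u w : V v m, ∀ z : V v m, z.man = true → z ≠ y → x.key lit z ≤ x.key lit y →
      z = u ∨ z = w := by
    cases x <;> simp only [V.man, reduceCtorEq] at hx <;>
      simp only [rel, goal, Option.some.injEq] at h <;> subst h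
    case C i s =>
      refine ⟨.K i s, .K i s, fun z hz hne hk => ?_⟩
      cases z <;> simp only [V.man, reduceCtorEq] at hz <;> simp only [V.key] at hk <;>
        (try split_ifs at hk) <;> simp_all
    case P j =>
      refine ⟨.D j, .D j, fun z hz hne hk => ?_⟩
      cases z <;> simp only [V.man, reduceCtorEq] at hz <;> simp only [V.key] at hk <;>
        (try split_ifs at hk) <;> simp_all
    case Q j =>
      refine ⟨.A j, .E j, fun z hz hne hk => ?_⟩
      cases z <;> simp only [V.man, reduceCtorEq] at hz <;> simp only [V.key] at hk <;>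
        (try split_ifs at hk) <;> simp_all
    case F j =>
      refine ⟨.A j, .A j, fun z hz hne hk => ?_⟩
      cases z <;> simp only [V.man, reduceCtorEq] at hz <;> simp only [V.key] at hk <;>
        (try split_ifs at hk) <;> simp_all
  obtain ⟨u, w, hkey⟩ := key
  rcases hkey z0 a0 b0 c0 with rfl | rfl <;> rcases hkey z1 a1 b1 c1 with rfl | rfl <;>
    rcases hkey z2 a2 b2 c2 with rfl | rfl <;> simp

end abs

variable (φ : CNF)

theorem len_inst1 : (inst φ).1.1.length = nn φ := by simp [inst]

theorem goal_total (x : V (nv φ) (nc φ)) : ∃ y, rel goal x y := by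
  cases x <;> exact ⟨_, rfl⟩

theorem init_total (x : V (nv φ) (nc φ)) : ∃ y, rel init x y := by
  cases x <;> exact ⟨_, rfl⟩

theorem mem_of_rel {g : V (nv φ) (nc φ) → Option (V (nv φ) (nc φ))} {l : List (ℕ × ℕ)}
    (hl : ofList l = Relation.Map (rel g) code code) {x y : V (nv φ) (nc φ)}
    (hx : x.man = true) (h : rel g x y) : ((code x).2, (code y).2) ∈ l := by
  have h1 : ofList l (code x) (code y) := by rw [hl]; exact ⟨x, y, h, rfl, rfl⟩
  rcases h1 with ⟨_, _, h3⟩ | ⟨h2, _, _⟩
  · exact h3
  · rw [code_fst, hx] at h2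
    exact absurd h2 (by simp)

theorem perfect_of {g : V (nv φ) (nc φ) → Option (V (nv φ) (nc φ))} {l : List (ℕ × ℕ)}
    (hl : ofList l = Relation.Map (rel g) code code) (ht : ∀ x, ∃ y, rel g x y)
    (hs : ∀ a b, rel g a b → rel g b a) (hm : ∀ a b, rel g a b → a.man ≠ b.man) :
    PerfectL (inst φ).1 l := by
  intro i hi
  rw [len_inst1] at hi
  constructor
  · obtain ⟨x, hx⟩ := code_surj (v := nv φ) (m := nc φ) true hi
    obtain ⟨y, hy⟩ := ht x
    have hxm : x.man = true := by rw [← code_fst, hx]
    refine ⟨(code y).2, ?_⟩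
    have := mem_of_rel φ hl hxm hy
    rwa [hx] at this
  · obtain ⟨x, hx⟩ := code_surj (v := nv φ) (m := nc φ) false hi
    obtain ⟨y, hy⟩ := ht x
    have hxm : x.man = false := by rw [← code_fst, hx]
    have hym : y.man = true := by
      have := hm _ _ hy
      rw [hxm] at this
      simpa using this.symm
    refine ⟨(code y).2, ?_⟩
    have := mem_of_rel φ hl hym (hs _ _ hy)
    rwa [hx] at this

/-- in the final matching every man has his first choice -/
theorem r_goal_zero (x y : V (nv φ) (nc φ)) (hx : x.man = true) (h : rel goal x y)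
    (z : V (nv φ) (nc φ)) (hz : z.man = false) (hne : z ≠ y) :
    (absMkt φ).r x y < (absMkt φ).r x z := by
  have hG := absMkt_good φ
  refine hG.key x y z ?_ ?_ (goal_key_zero _ x y z hx hz h hne)
  · exact goal_man _ _ h
  · rw [hx, hz]; simp

theorem menFirst : MenFirst (inst φ).1 (inst φ).2.2 := by
  intro i hi
  rw [len_inst1] at hi
  obtain ⟨x, hx⟩ := code_surj (v := nv φ) (m := nc φ) true hi
  have hxm : x.man = true := by rw [← code_fst, hx]
  obtain ⟨y, hy⟩ := goal_total φ x
  have h1 := mem_of_rel φ (ofList_goal φ) hxm hy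
  rw [hx] at h1
  refine ⟨(code y).2, h1, ?_⟩
  set l := (inst φ).1.1.getD i [] with hl
  have hlen : l.Perm (List.range (nn φ)) := by
    have hI := (isInst φ).2.1
    rw [len_inst1] at hI
    refine hI l ?_
    rw [hl, List.getD_eq_getElem _ _ (by rw [len_inst1]; exact hi)]
    exact List.getElem_mem _
  have hr : ∀ z : V (nv φ) (nc φ), (absMkt φ).r x z = l.idxOf (code z).2 := by
    intro z
    change ((if (code x).1 then (inst φ).1.1 else (inst φ).1.2).getD (code x).2 []).idxOf
      (code z).2 = _
    rw [hx, hl]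
    simp
  rcases hhd : l with _ | ⟨w, t⟩
  · have := hlen.length_eq
    rw [hhd, List.length_range, List.length_nil] at this
    omega
  · have hw : w < nn φ := by
      have : w ∈ List.range (nn φ) := hlen.subset (by rw [hhd]; simp)
      simpa using this
    obtain ⟨z, hz⟩ := code_surj (v := nv φ) (m := nc φ) false hw
    have hzm : z.man = false := by rw [← code_fst, hz]
    by_cases hzy : z = y
    · rw [← hzy, hz]
      rfl
    · have h2 := r_goal_zero φ x y hxm hy z hzm hzy
      rw [hr, hr, hz, hhd, List.idxOf_cons_self] at h2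
      omega

theorem womenThree : WomenThree (inst φ).1 (inst φ).2.2 := by
  intro i hi
  rw [len_inst1] at hi
  obtain ⟨x, hx⟩ := code_surj (v := nv φ) (m := nc φ) false hi
  have hxm : x.man = false := by rw [← code_fst, hx]
  obtain ⟨y, hy⟩ := goal_total φ x
  have hym : y.man = true := by
    have := goal_man _ _ hy
    rw [hxm] at this
    simpa using this.symm
  have h1 := mem_of_rel φ (ofList_goal φ) hym (goal_symm _ _ hy)
  rw [hx] at h1
  refine ⟨(code y).2, h1, ?_⟩
  set l := (inst φ).1.2.getD i [] with hl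
  have hlen2 : (inst φ).1.2.length = nn φ := by simp [inst]
  have hlen : l.Perm (List.range (nn φ)) := by
    have hI := (isInst φ).2.2
    rw [len_inst1] at hI
    refine hI l ?_
    rw [hl, List.getD_eq_getElem _ _ (by rw [hlen2]; exact hi)]
    exact List.getElem_mem _
  have hnd : l.Nodup := hlen.nodup_iff.2 List.nodup_range
  have hr : ∀ z : V (nv φ) (nc φ), (absMkt φ).r x z = l.idxOf (code z).2 := by
    intro z
    change ((if (code x).1 then (inst φ).1.1 else (inst φ).1.2).getD (code x).2 []).idxOf
      (code z).2 = _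
    rw [hx, hl]
    simp
  have hyl : (code y).2 ∈ l := by
    rw [hlen.mem_iff, List.mem_range]
    exact code_lt y
  have hidx : l.idxOf (code y).2 < l.length := List.idxOf_lt_length_of_mem hyl
  by_cases hk : l.idxOf (code y).2 < 3
  · rw [List.mem_take_iff_getElem]
    exact ⟨l.idxOf (code y).2, by omega, by simp⟩
  · exfalso
    have hz : ∀ t : ℕ, t < 3 → ∃ z : V (nv φ) (nc φ), pref3 (litF φ) x y z ∧
        (absMkt φ).r x z = t := by
      intro t ht
      have htl : t < l.length := by omega
      have hw : l[t] < nn φ := by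
        have : l[t] ∈ List.range (nn φ) := hlen.subset (List.getElem_mem _)
        simpa using this
      obtain ⟨z, hz⟩ := code_surj (v := nv φ) (m := nc φ) true hw
      have hzm : z.man = true := by rw [← code_fst, hz]
      have hrz : (absMkt φ).r x z = t := by
        rw [hr, hz]
        exact hnd.idxOf_getElem t htl
      refine ⟨z, ⟨hzm, ?_, ?_⟩, hrz⟩
      · rintro rfl
        rw [hr] at hrz
        omega
      · by_contra hlt
        have h3 := (absMkt_good φ).key x y z (goal_man _ _ hy) (by rw [hxm, hzm]; simp)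
          (not_le.1 hlt)
        rw [hrz, hr] at h3
        omega
    obtain ⟨z0, p0, r0⟩ := hz 0 (by omega)
    obtain ⟨z1, p1, r1⟩ := hz 1 (by omega)
    obtain ⟨z2, p2, r2⟩ := hz 2 (by omega)
    rcases pref3_two (litF φ) x y z0 z1 z2 hxm hy p0 p1 p2 with rfl | rfl | rfl <;> omega

/-- the final matching is the man-optimal stable matching -/
theorem goal_optimal : ManOptimal (market (inst φ).1) (ofList (inst φ).2.2) := by
  have hL := legal φ
  refine ⟨⟨hL.2.2.1, hL.2.2.2⟩, ?_⟩
  intro M' hM' _ a b' ha h
  obtain ⟨x, z, hxa, hzb, hxz⟩ := (opp_iff φ a b').1 (hM'.2.1 _ _ h)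
  obtain ⟨y, hy⟩ := goal_total φ x
  have hxm : x.man = true := by rw [← code_fst, hxa, ha]
  have hzm : z.man = false := by
    rw [hxm] at hxz
    simpa using hxz.symm
  refine ⟨code y, ?_, ?_⟩
  · rw [ofList_goal, ← hxa]
    exact ⟨x, y, hy, rfl, rfl⟩
  · rw [← hxa, ← hzb]
    by_cases hzy : z = y
    · rw [hzy]
    · exact (r_goal_zero φ x y hxm hy z hzm hzy).le

/-- uniqueness of the man-optimal stable matching of the instances -/
theorem optimal_unique (M : Bool × ℕ → Bool × ℕ → Prop)
    (h : ManOptimal (market (inst φ).1) M) : M = ofList (inst φ).2.2 := by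
  have hL := legal φ
  have hmen : ∀ x y : V (nv φ) (nc φ), x.man = true → rel goal x y → M (code x) (code y) := by
    intro x y hxm hy
    have h1 : ofList (inst φ).2.2 (code x) (code y) := by
      rw [ofList_goal]; exact ⟨x, y, hy, rfl, rfl⟩
    obtain ⟨b, hb, hle⟩ := h.2 _ hL.2.2.1 hL.2.2.2 (code x) (code y)
      (by rw [code_fst, hxm]) h1
    obtain ⟨x', z, hxa, hzb, hxz⟩ := (opp_iff φ _ _).1 (h.1.1.2.1 _ _ hb)
    have hxx : x' = x := code_injective hxa
    subst hxx
    have hzm : z.man = false := by
      rw [hxm] at hxz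
      simpa using hxz.symm
    by_cases hzy : z = y
    · rw [← hzy, hzb]
      exact hb
    · exfalso
      have h2 := r_goal_zero φ x' y hxm hy z hzm hzy
      rw [← hzb] at hle
      exact absurd hle (not_le.2 h2)
  have hall : ∀ x y : V (nv φ) (nc φ), rel goal x y → M (code x) (code y) := by
    intro x y hy
    cases hxm : x.man
    · refine h.1.1.1 _ _ (hmen y x ?_ (goal_symm _ _ hy))
      have := goal_man _ _ hy
      rw [hxm] at this
      simpa using this.symm
    · exact hmen x y hxm hy
  funext a b
  apply propext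
  rw [ofList_goal]
  constructor
  · intro hab
    obtain ⟨x, z, hxa, hzb, _⟩ := (opp_iff φ _ _).1 (h.1.1.2.1 _ _ hab)
    obtain ⟨y, hy⟩ := goal_total φ x
    have h3 := hall x y hy
    rw [hxa] at h3
    have h4 := h.1.1.2.2 _ _ _ hab h3
    exact ⟨x, y, hy, hxa, h4.symm⟩
  · rintro ⟨x, y, hxy, rfl, rfl⟩
    exact hall x y hxy

/-- the restricted inputs -/
def Restr (x : Inp) : Prop :=
  Legal x ∧ PerfectL x.1 x.2.1 ∧ MenFirst x.1 x.2.2 ∧ WomenThree x.1 x.2.2 ∧
    ManOptimal (market x.1) (ofList x.2.2)

theorem restr_inst : Restr (inst φ) :=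
  ⟨legal φ, perfect_of φ (ofList_init φ) (init_total φ) init_symm init_man, menFirst φ,
    womenThree φ, goal_optimal φ⟩

theorem hardPr_restr :
    HardPr Restr (fun x => Reaches (market x.1) (ofList x.2.1) (ofList x.2.2)) :=
  hardI_SAT.toHardPr.trans inst_poly (fun φ _ => restr_inst φ)
    (fun φ _ => (reaches_iff φ).symm)

theorem reachOpt_iff : SAT φ ↔ REACHOpt ((inst φ).1, (inst φ).2.1) := by
  constructor
  · intro h
    exact ⟨(legal φ).1, (legal φ).2.1, _, goal_optimal φ, (reaches_iff φ).2 h⟩
  · rintro ⟨_, _, M, hM, hR⟩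
    rw [optimal_unique φ M hM] at hR
    exact (reaches_iff φ).1 hR

theorem hardI_opt : HardI REACHOpt :=
  hardI_SAT.trans (f := fun φ : CNF => ((inst φ).1, (inst φ).2.1))
    (Poly.pair (Poly.fst inst_poly) (Poly.fst (Poly.snd inst_poly))) (fun φ => reachOpt_iff φ)

end Pool.Agent.H654R3.RVV
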